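import Pool.Agent.P.MP_d21a88_gt.Iff

set_option autoImplicit false

open Pool.Agent.PonceletEuler in
/-- For every Poncelet pair of ellipses (`C` strictly inside `E`), a point with constant power with
respect to the Euler circles of all Poncelet triangles exists exactly when an explicit condition
on the semi-axes of `E`, the normalised centre `z` of `C` and the product `m` of its normalised
foci holds. -/
theorem Pool.Agent.Results.MP_d21a88_gt.EulerPointIff.result (E C : Ellipse)
    (hin : ∀ x, C.form x ≤ 1 → E.form x < 1) (hex : ∃ T, Poncelet E C T)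
    (U V W : ℝ) (hU : U = 3 * E.a ^ 2 + E.b ^ 2) (hV : V = E.a ^ 2 + 3 * E.b ^ 2)
    (hW : W = E.a ^ 2 - E.b ^ 2) (z m : ℂ) (hz : z = ctr E C) (hm : m = focProd E C) :
    (∃ (P : Pl) (κ : ℝ), ∀ T : Affine.Triangle ℝ Pl,
        Poncelet E C T → T.ninePointCircle.power P = κ) ↔
      (U * V * ‖m‖ ^ 2 - W * (U + V) * m.re + W ^ 2 ≠ 0 ∨
        (V * ‖m‖ ^ 2 * z.re = W * (z * m).re ∧ U * ‖m‖ ^ 2 * z.im = W * (z * m).im)) :=
  euler_iff E C hin hex U V W hU hV hW z m hz hm
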