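import Pool.Agent.P.MP_d21a88_gt.Main

set_option autoImplicit false

open Pool.Agent.PonceletEuler in
/-- Inside every ellipse `E` that is not a circle there is an ellipse `C`, strictly inside,
non-concentric and non-axis-aligned, with two Poncelet triangles (vertices on `E`, sides tangent
to `C`) such that no point of the plane has the same power with respect to their two Euler
circles. -/
theorem Pool.Agent.Results.MP_d21a88_gt.NoEulerPoint.result (E : Ellipse) (hE : E.a ≠ E.b) :
    ∃ C : Ellipse, (∀ x, C.form x ≤ 1 → E.form x < 1) ∧ C.c ≠ E.c ∧ NonAligned E C ∧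
      ∃ T₁ T₂ : Affine.Triangle ℝ Pl, Poncelet E C T₁ ∧ Poncelet E C T₂ ∧
        ∀ P : Pl, T₁.ninePointCircle.power P ≠ T₂.ninePointCircle.power P :=
  main E hE
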